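import Pool.Agent.Helper23.HP.F67

/-!
# HOPF-F5: the cylindrical extension of `g2` is a metric
-/

open Filter Metric Module Set
open scoped Topology ContDiff RealInnerProductSpace Manifold Quaternion

namespace Pool.Agent.Helper23.HP
open Pool.Agent.Helper20.PC Pool.Agent.Helper20.HP

lemma two_le_infty : (2 : WithTop ℕ∞) ≤ ∞ := by
  have : ((2 : ℕ∞) : WithTop ℕ∞) ≤ ((⊤ : ℕ∞) : WithTop ℕ∞) := WithTop.coe_le_coe.2 le_top
  exact this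

section
variable {E₁ E₂ : Type*} [NormedAddCommGroup E₁] [InnerProductSpace ℝ E₁]
    [NormedAddCommGroup E₂] [InnerProductSpace ℝ E₂]

lemma contDiffAt_dn_pair {z : E₁ × E₂} (hz1 : z.1 ≠ 0) (hz2 : z.2 ≠ 0) (w : E₁ × E₂) :
    ContDiffAt ℝ 2 (fun z : E₁ × E₂ => (dn z.1 w.1, dn z.2 w.2)) z :=
  (((contDiffAt_dn hz1).comp z contDiffAt_fst).clm_apply contDiffAt_const).prodMk
    (((contDiffAt_dn hz2).comp z contDiffAt_snd).clm_apply contDiffAt_const)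

lemma metAt_extM [FiniteDimensional ℝ E₁] [FiniteDimensional ℝ E₂]
    {g : sphere (0 : E₁) 1 × sphere (0 : E₂) 1 → (E₁ × E₂) →L[ℝ] (E₁ × E₂) →L[ℝ] ℝ}
    (hs : ∀ p u v, g p u v = g p v u)
    (hp : ∀ (p : sphere (0 : E₁) 1 × sphere (0 : E₂) 1) (u : E₁ × E₂), ⟪(p.1 : E₁), u.1⟫ = 0 →
      ⟪(p.2 : E₂), u.2⟫ = 0 → u ≠ 0 → 0 < g p u u)
    (p : sphere (0 : E₁) 1 × sphere (0 : E₂) 1) {z : E₁ × E₂} (hz1 : z.1 ≠ 0) (hz2 : z.2 ≠ 0)
    (hg : ∀ u v : E₁ × E₂, ContDiffAt ℝ 2 (fun z : E₁ × E₂ =>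
      g (toS p.1 z.1, toS p.2 z.2) (dn z.1 u.1, dn z.2 u.2) (dn z.1 v.1, dn z.2 v.2)) z) :
    MetAt (extM p g) z where
  smooth := by
    refine contDiffAt_of_apply (fun u => contDiffAt_of_apply (fun v => ?_))
    simp only [extM_apply]
    have a1 : ∀ w : E₁ × E₂, ContDiffAt ℝ 2 (fun z : E₁ × E₂ => dl z.1 w.1) z := fun w =>
      ((contDiffAt_dl hz1).comp z contDiffAt_fst).clm_apply contDiffAt_const
    have a2 : ∀ w : E₁ × E₂, ContDiffAt ℝ 2 (fun z : E₁ × E₂ => dl z.2 w.2) z := fun w =>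
      ((contDiffAt_dl hz2).comp z contDiffAt_snd).clm_apply contDiffAt_const
    exact (((a1 u).mul (a1 v)).add ((a2 u).mul (a2 v))).add (hg u v)
  symm := Eventually.of_forall (fun z' u v => by
    rw [extM_apply, extM_apply, hs, mul_comm (dl z'.1 u.1), mul_comm (dl z'.2 u.2)])
  pos := by
    have e1 : ∀ᶠ z' : E₁ × E₂ in 𝓝 z, z'.1 ≠ 0 := continuous_fst.continuousAt.eventually_ne hz1
    have e2 : ∀ᶠ z' : E₁ × E₂ in 𝓝 z, z'.2 ≠ 0 := continuous_snd.continuousAt.eventually_ne hz2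
    filter_upwards [e1, e2] with z' h1 h2 u hu
    rw [extM_apply]
    have t1 : ⟪((toS p.1 z'.1 : sphere (0 : E₁) 1) : E₁), dn z'.1 u.1⟫ = 0 := by
      rw [toS_val p.1 h1, inner_smul_left, inner_dn _ _ h1, mul_zero]
    have t2 : ⟪((toS p.2 z'.2 : sphere (0 : E₂) 1) : E₂), dn z'.2 u.2⟫ = 0 := by
      rw [toS_val p.2 h2, inner_smul_left, inner_dn _ _ h2, mul_zero]
    have q1 := mul_self_nonneg (dl z'.1 u.1)
    have q2 := mul_self_nonneg (dl z'.2 u.2)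
    by_cases h3 : (dn z'.1 u.1, dn z'.2 u.2) = (0 : E₁ × E₂)
    · rw [h3]
      simp only [map_zero, add_zero]
      rw [Prod.mk_eq_zero] at h3
      by_cases h4 : dl z'.1 u.1 = 0
      · have h5 : dl z'.2 u.2 ≠ 0 := fun h5 => hu (Prod.ext (eq_zero_of_dl_dn h1 h4 h3.1)
          (eq_zero_of_dl_dn h2 h5 h3.2))
        have := mul_self_pos.2 h5
        linarith
      · have := mul_self_pos.2 h4
        linarith
    · have := hp (toS p.1 z'.1, toS p.2 z'.2) _ t1 t2 h3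
      linarith

end

theorem metAt_ext_g2 {κ ε T δ : ℝ} (hκ : |κ| ≤ 1/10)
    (hM : ∀ y : E3, ‖y‖ = 1 → ∀ a, a ≠ 0 → 0 < Mf κ ε T δ y a a)
    (p : sphere (0 : E3) 1 × sphere (0 : E3) 1) {z : E3 × E3} (hz1 : z.1 ≠ 0) (hz2 : z.2 ≠ 0) :
    MetAt (extM p (g2 κ ε T δ)) z := by
  obtain ⟨h1, h2, h3⟩ := g2_metric (ε := ε) (T := T) (δ := δ) hκ hM
  refine metAt_extM h2 h3 p hz1 hz2 (fun u v => ?_)
  have c : ContDiffAt ℝ 2 (fun z : E3 × E3 => g2 κ ε T δ (toS p.1 z.1, toS p.2 z.2)) z :=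
    (contDiffAt_comp_toS₂ h1 p hz1 hz2).of_le two_le_infty
  exact (c.clm_apply (contDiffAt_dn_pair hz1 hz2 u)).clm_apply (contDiffAt_dn_pair hz1 hz2 v)

theorem metAt_ext_g3 {κ ε T δ : ℝ} (hκ : |κ| ≤ 1/10)
    (hM : ∀ y : E3, ‖y‖ = 1 → ∀ a, a ≠ 0 → 0 < Mf κ ε T δ y a a)
    (p : sphere (0 : E3) 1 × sphere (0 : ℍ[ℝ]) 1) {z : E3 × ℍ[ℝ]} (hz1 : z.1 ≠ 0) (hz2 : z.2 ≠ 0) :
    MetAt (extM p (g3 κ ε T δ)) z := by
  obtain ⟨h1, h2, h3⟩ := g3_metric (ε := ε) (T := T) (δ := δ) hκ hM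
  refine metAt_extM h2 h3 p hz1 hz2 (fun u v => ?_)
  have c : ContDiffAt ℝ 2 (fun z : E3 × ℍ[ℝ] => g3 κ ε T δ (toS p.1 z.1, toS p.2 z.2)) z :=
    (contDiffAt_comp_toS₂ h1 p hz1 hz2).of_le two_le_infty
  exact (c.clm_apply (contDiffAt_dn_pair hz1 hz2 u)).clm_apply (contDiffAt_dn_pair hz1 hz2 v)

end Pool.Agent.Helper23.HP
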