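import Pool.Agent.Helper20.HP.Data2
import Pool.Agent.Helper20.PC.Prod

/-!
# Elementary lemmas on the explicit data (for the packaging pieces F2, F5-F9)
-/

open Filter Metric Module Set
open scoped Topology ContDiff RealInnerProductSpace Manifold Quaternion

namespace Pool.Agent.Helper23.HP
open Pool.Agent.Helper20.PC Pool.Agent.Helper20.HP

lemma norm_sq_E3 (x : E3) : ‖x‖ ^ 2 = x 0 ^ 2 + x 1 ^ 2 + x 2 ^ 2 := by
  rw [EuclideanSpace.norm_sq_eq, Fin.sum_univ_three]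
  simp [sq_abs]

lemma inner_E3 (x y : E3) : ⟪x, y⟫ = x 0 * y 0 + x 1 * y 1 + x 2 * y 2 := by
  rw [PiLp.inner_apply, Fin.sum_univ_three]
  simp
  ring

lemma Hb_eq (x y : E3) : Hb x y = x 0 * (y 1 + y 2) + (x 1 + x 2) * y 0 := rfl

lemma abs_Hb_le {x : E3} (hx : ‖x‖ = 1) : |Hb x x| ≤ 2 := by
  have h := norm_sq_E3 x
  rw [hx] at h
  rw [Hb_eq, abs_le]
  constructor
  · nlinarith [sq_nonneg (x 0 + x 1), sq_nonneg (x 0 + x 2), sq_nonneg (x 1), sq_nonneg (x 2)]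
  · nlinarith [sq_nonneg (x 0 - x 1), sq_nonneg (x 0 - x 2), sq_nonneg (x 1), sq_nonneg (x 2)]

lemma sg_pos {κ : ℝ} (hκ : |κ| ≤ 1/10) {x : E3} (hx : ‖x‖ = 1) : 0 < sg κ x := by
  have h := abs_Hb_le hx
  have h2 : |κ * Hb x x| ≤ 1/10 * 2 := by
    rw [abs_mul]
    exact mul_le_mul hκ h (abs_nonneg _) (by norm_num)
  have := (abs_le.1 h2).2
  rw [sg]
  linarith

lemma Mf_apply (κ ε T δ : ℝ) (x a b : E3) :
    Mf κ ε T δ x a b = δ ^ 2 * ⟪a, b⟫ - δ ^ 4 * Sb κ ε T x a b := by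
  simp [Mf, inL_apply]

lemma hhat_apply (κ : ℝ) (x a b : E3) : hhat κ x a b = ((sg κ x) ^ 2)⁻¹ * ⟪a, b⟫ := by
  simp [hhat, inL_apply]

lemma Sb_symm (κ ε T : ℝ) (x a b : E3) : Sb κ ε T x a b = Sb κ ε T x b a := by
  simp only [Sb, SbG, dotG, HbG, FbG, PhG, smul_eq_mul]
  ring

lemma Mf_symm (κ ε T δ : ℝ) (x a b : E3) : Mf κ ε T δ x a b = Mf κ ε T δ x b a := by
  rw [Mf_apply, Mf_apply, Sb_symm, real_inner_comm]

lemma hhat_symm (κ : ℝ) (x a b : E3) : hhat κ x a b = hhat κ x b a := by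
  rw [hhat_apply, hhat_apply, real_inner_comm]

lemma nn_norm {x : E3} (hx : x ≠ 0) : ‖nn x‖ = 1 := norm_normalize hx

lemma Mf_nonneg {κ ε T δ : ℝ} (hM : ∀ y : E3, ‖y‖ = 1 → ∀ a, a ≠ 0 → 0 < Mf κ ε T δ y a a)
    {y : E3} (hy : ‖y‖ = 1) (a : E3) : 0 ≤ Mf κ ε T δ y a a := by
  by_cases ha : a = 0
  · rw [ha]; simp
  · exact (hM y hy a ha).le

/-! ### smoothness -/

lemma contDiff_coord (i : Fin 3) {r : WithTop ℕ∞} : ContDiff ℝ r (fun x : E3 => x i) :=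
  (EuclideanSpace.proj (𝕜 := ℝ) i : E3 →L[ℝ] ℝ).contDiff

lemma contDiff_Hb {r : WithTop ℕ∞} : ContDiff ℝ r (fun x : E3 => Hb x x) := by
  have h0 := contDiff_coord 0 (r := r)
  have h1 := contDiff_coord 1 (r := r)
  have h2 := contDiff_coord 2 (r := r)
  simp only [Hb_eq]
  exact (h0.mul (h1.add h2)).add ((h1.add h2).mul h0)

lemma contDiff_sg (κ : ℝ) {r : WithTop ℕ∞} : ContDiff ℝ r (sg κ) := by
  unfold sg
  exact contDiff_const.sub (contDiff_const.mul contDiff_Hb)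

lemma contDiff_rr (ε : ℝ) {r : WithTop ℕ∞} : ContDiff ℝ r (rr ε) := by
  unfold rr
  exact contDiff_const.add (contDiff_const.mul (contDiff_coord 2))

lemma contDiff_Sb (κ ε T : ℝ) (a b : E3) {r : WithTop ℕ∞} :
    ContDiff ℝ r (fun x : E3 => Sb κ ε T x a b) := by
  have h0 := contDiff_coord 0 (r := r)
  have h1 := contDiff_coord 1 (r := r)
  have h2 := contDiff_coord 2 (r := r)
  simp only [Sb, SbG, dotG, HbG, FbG, PhG, smul_eq_mul]
  fun_prop

lemma contDiff_SbL (κ ε T : ℝ) {r : WithTop ℕ∞} : ContDiff ℝ r (SbL κ ε T) := by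
  rw [contDiff_iff_contDiffAt]
  intro x
  refine contDiffAt_of_apply (fun a => contDiffAt_of_apply (fun b => ?_))
  simp only [SbL_apply]
  exact (contDiff_Sb κ ε T a b).contDiffAt

lemma contDiff_Mf (κ ε T δ : ℝ) {r : WithTop ℕ∞} : ContDiff ℝ r (Mf κ ε T δ) := by
  rw [contDiff_iff_contDiffAt]
  intro x
  refine contDiffAt_of_apply (fun a => contDiffAt_of_apply (fun b => ?_))
  simp only [Mf_apply]
  exact contDiffAt_const.sub (contDiffAt_const.mul (contDiff_Sb κ ε T a b).contDiffAt)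

lemma contDiffAt_hhat (κ : ℝ) {x : E3} (hx : sg κ x ≠ 0) {r : WithTop ℕ∞} :
    ContDiffAt ℝ r (hhat κ) x := by
  refine contDiffAt_of_apply (fun a => contDiffAt_of_apply (fun b => ?_))
  simp only [hhat_apply]
  have h1 : ContDiffAt ℝ r (fun x : E3 => (sg κ x ^ 2)⁻¹) x :=
    (((contDiff_sg κ).contDiffAt.pow 2).inv (pow_ne_zero 2 hx))
  exact h1.mul contDiffAt_const

lemma contDiff_Hv {r : WithTop ℕ∞} : ContDiff ℝ r Hv := by
  rw [contDiff_euclidean]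
  intro i
  have h0 := contDiff_coord 0 (r := r)
  have h1 := contDiff_coord 1 (r := r)
  have h2 := contDiff_coord 2 (r := r)
  fin_cases i <;> simp [Hv] <;> fun_prop

lemma contDiffAt_AvL (κ ε : ℝ) {x : E3} (hx : sg κ x ≠ 0) {r : WithTop ℕ∞} :
    ContDiffAt ℝ r (AvL κ ε) x := by
  unfold AvL
  have h1 : ContDiffAt ℝ r (fun x => rr ε x / sg κ x - 1) x :=
    ((contDiff_rr ε).contDiffAt.div (contDiff_sg κ).contDiffAt hx).sub contDiffAt_const
  have h2 : ContDiffAt ℝ r (fun x => crL x) x := crL.contDiff.contDiffAt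
  have h3 : ContDiffAt ℝ r (fun x => 2 * κ / sg κ x) x :=
    contDiffAt_const.div (contDiff_sg κ).contDiffAt hx
  have h4 : ContDiffAt ℝ r (fun x : E3 => cr x (Hv x)) x := by
    have : (fun x : E3 => cr x (Hv x)) = fun x => crL x (Hv x) := by
      funext x; rw [crL_apply]
    rw [this]
    exact h2.clm_apply contDiff_Hv.contDiffAt
  have h5 : ContDiffAt ℝ r (fun x : E3 => (innerSL ℝ (cr x (Hv x)) : E3 →L[ℝ] ℝ)) x :=
    (innerSL ℝ (E := E3)).contDiff.contDiffAt.comp x h4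
  exact (h1.smul h2).add (h3.smul (h5.smulRight contDiffAt_id))

end Pool.Agent.Helper23.HP
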