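import Pool.Agent.Helper23.HP.Basic

/-!
# HOPF-F2: the cylindrical extension of `g3` is the Kaluza-Klein metric
-/

open Filter Metric Module Set
open scoped Topology ContDiff RealInnerProductSpace Manifold Quaternion

namespace Pool.Agent.Helper23.HP
open Pool.Agent.Helper20.PC Pool.Agent.Helper20.HP

lemma normSq_eq (q : ℍ[ℝ]) : Quaternion.normSq q = ‖q‖ ^ 2 := by
  rw [Quaternion.normSq_eq_norm_mul_self, sq]

lemma inv_quat (q : ℍ[ℝ]) : q⁻¹ = (‖q‖ ^ 2)⁻¹ • star q := by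
  rw [← normSq_eq]
  rfl

lemma re_mul_inv (q b : ℍ[ℝ]) : (b * q⁻¹).re = (‖q‖ ^ 2)⁻¹ * ⟪q, b⟫ := by
  rw [inv_quat, mul_smul_comm, Quaternion.re_smul, real_inner_comm, Quaternion.inner_def, smul_eq_mul]

lemma vecL_one : vecL (1 : ℍ[ℝ]) = 0 := by
  rw [vecL_apply]; ext i; fin_cases i <;> simp

lemma vecL_qimL (v : E3) : vecL (qimL v) = v := by
  rw [vecL_apply, qimL_apply]; ext i; fin_cases i <;> simp

lemma re_qimL (v : E3) : (qimL v).re = 0 := rfl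

/-- the vertical component of a vector at `q/|q|`. -/
lemma vecL_dn (q b : ℍ[ℝ]) (hq : q ≠ 0) :
    vecL (dn q b * (‖q‖⁻¹ • q)⁻¹) = vecL (b * q⁻¹) := by
  have hn : ‖q‖ ≠ 0 := norm_ne_zero_iff.2 hq
  have e1 : (‖q‖⁻¹ • q)⁻¹ = ‖q‖ • q⁻¹ := by
    rw [inv_quat, inv_quat, norm_smul, norm_inv, norm_norm, inv_mul_cancel₀ hn, Quaternion.star_smul, smul_smul,
      smul_smul]
    congr 1
    simp
    field_simp
  rw [e1, dn_apply, mul_smul_comm, smul_mul_assoc, smul_smul, mul_inv_cancel₀ hn, one_smul, sub_mul,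
    smul_mul_assoc, mul_inv_cancel₀ hq, map_sub, map_smul, vecL_one, smul_zero, sub_zero]

lemma W3_apply (κ ε : ℝ) (x : E3) (q : ℍ[ℝ]) (u : E3 × ℍ[ℝ]) :
    W3 κ ε x q u = (2 : ℝ) • vecL (u.2 * q⁻¹) + AvL κ ε x u.1 := by
  simp [W3]

lemma lam_apply (κ ε : ℝ) (z u : E3 × ℍ[ℝ]) :
    lam (AE κ ε) z u = u.2 * z.2⁻¹ + AE κ ε z.1 u.1 := by
  simp [lam]

lemma AE_apply (κ ε : ℝ) (x u : E3) : AE κ ε x u = (1/2 : ℝ) • qimL (AvL κ ε (nn x) (dn x u)) := by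
  simp [AE]

lemma hE_apply (κ : ℝ) (x u v : E3) :
    hE κ x u v = dl x u * dl x v + hhat κ (nn x) (dn x u) (dn x v) := by
  simp [hE]

lemma NE_apply (κ ε T δ : ℝ) (x : E3) (a b : ℍ[ℝ]) :
    NE κ ε T δ x a b = a.re * b.re + 4 * Mf κ ε T δ (nn x) (vecL a) (vecL b) := by
  simp [NE, reL_apply]

lemma KK_apply (κ ε T δ : ℝ) (z u v : E3 × ℍ[ℝ]) :
    KK (hE κ) (NE κ ε T δ) (AE κ ε) z u v
      = hE κ z.1 u.1 v.1 + NE κ ε T δ z.1 (lam (AE κ ε) z u) (lam (AE κ ε) z v) := by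
  simp [KK]

lemma g3_apply (κ ε T δ : ℝ) (p : sphere (0 : E3) 1 × sphere (0 : ℍ[ℝ]) 1) (u v : E3 × ℍ[ℝ]) :
    g3 κ ε T δ p u v = hhat κ p.1 u.1 v.1
      + Mf κ ε T δ p.1 (W3 κ ε p.1 p.2 u) (W3 κ ε p.1 p.2 v) := by
  simp [g3]

lemma extM_apply {E₁ E₂ : Type*} [NormedAddCommGroup E₁] [InnerProductSpace ℝ E₁]
    [NormedAddCommGroup E₂] [InnerProductSpace ℝ E₂] (p : sphere (0 : E₁) 1 × sphere (0 : E₂) 1)
    (g : sphere (0 : E₁) 1 × sphere (0 : E₂) 1 → (E₁ × E₂) →L[ℝ] (E₁ × E₂) →L[ℝ] ℝ)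
    (z u v : E₁ × E₂) :
    extM p g z u v = dl z.1 u.1 * dl z.1 v.1 + dl z.2 u.2 * dl z.2 v.2
      + g (toS p.1 z.1, toS p.2 z.2) (dn z.1 u.1, dn z.2 u.2) (dn z.1 v.1, dn z.2 v.2) := by
  simp [extM, Prod.map]

theorem ext_g3 {κ ε T δ : ℝ} (p : sphere (0 : E3) 1 × sphere (0 : ℍ[ℝ]) 1) {z : E3 × ℍ[ℝ]}
    (hz1 : z.1 ≠ 0) (hz2 : z.2 ≠ 0) (u v : E3 × ℍ[ℝ]) :
    extM p (g3 κ ε T δ) z u v = KK (hE κ) (NE κ ε T δ) (AE κ ε) z u v := by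
  have key : ∀ w : E3 × ℍ[ℝ], W3 κ ε (‖z.1‖⁻¹ • z.1) (‖z.2‖⁻¹ • z.2) (dn z.1 w.1, dn z.2 w.2)
      = (2 : ℝ) • vecL (lam (AE κ ε) z w) := by
    intro w
    rw [W3_apply, vecL_dn _ _ hz2, lam_apply, AE_apply, map_add, map_smul, vecL_qimL, smul_add,
      smul_smul]
    norm_num
    rfl
  have key2 : ∀ w : E3 × ℍ[ℝ], (lam (AE κ ε) z w).re = dl z.2 w.2 := by
    intro w
    rw [lam_apply, AE_apply, Quaternion.re_add, Quaternion.re_smul, re_qimL, re_mul_inv, dl_apply]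
    simp
  rw [extM_apply, g3_apply, KK_apply, NE_apply, hE_apply, toS_val p.1 hz1, toS_val p.2 hz2, key, key,
    key2, key2]
  simp only [map_smul, _root_.smul_apply, smul_eq_mul]
  have : nn z.1 = ‖z.1‖⁻¹ • z.1 := rfl
  rw [this]
  ring

end Pool.Agent.Helper23.HP
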