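import Pool.Agent.Helper23.HP.F2

/-!
# HOPF-F6, F7: smoothness, symmetry and positivity of `g3` and `g2`
-/

open Filter Metric Module Set
open scoped Topology ContDiff RealInnerProductSpace Manifold Quaternion

namespace Pool.Agent.Helper23.HP
open Pool.Agent.Helper20.PC Pool.Agent.Helper20.HP

lemma contDiffAt_inv_quat {q : ℍ[ℝ]} (hq : q ≠ 0) {r : WithTop ℕ∞} :
    ContDiffAt ℝ r (fun q : ℍ[ℝ] => q⁻¹) q := by
  have := contDiffAt_ringInverse (n := r) ℝ (Units.mk0 q hq)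
  rw [Ring.inverse_eq_inv'] at this
  exact this

lemma contDiffAt_W3_apply (κ ε : ℝ) {z : E3 × ℍ[ℝ]} (hs : sg κ z.1 ≠ 0) (hz : z.2 ≠ 0)
    (u : E3 × ℍ[ℝ]) {r : WithTop ℕ∞} :
    ContDiffAt ℝ r (fun z : E3 × ℍ[ℝ] => W3 κ ε z.1 z.2 u) z := by
  simp only [W3_apply]
  have h1 : ContDiffAt ℝ r (fun z : E3 × ℍ[ℝ] => z.2⁻¹) z :=
    ContDiffAt.comp z (contDiffAt_inv_quat hz) contDiffAt_snd
  have h2 : ContDiffAt ℝ r (fun z : E3 × ℍ[ℝ] => u.2 * z.2⁻¹) z := contDiffAt_const.mul h1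
  have h3 : ContDiffAt ℝ r (fun z : E3 × ℍ[ℝ] => vecL (u.2 * z.2⁻¹)) z :=
    vecL.contDiff.contDiffAt.comp z h2
  have h4 : ContDiffAt ℝ r (fun z : E3 × ℍ[ℝ] => AvL κ ε z.1 u.1) z :=
    ((contDiffAt_AvL κ ε hs).comp z contDiffAt_fst).clm_apply contDiffAt_const
  exact ((contDiffAt_const (c := (2 : ℝ))).smul h3).add h4

/-- the metric `g3` as a function on the ambient space. -/
noncomputable def G3 (κ ε T δ : ℝ) (z : E3 × ℍ[ℝ]) : (E3 × ℍ[ℝ]) →L[ℝ] (E3 × ℍ[ℝ]) →L[ℝ] ℝ :=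
  (hhat κ z.1).bilinearComp (ContinuousLinearMap.fst ℝ E3 ℍ[ℝ]) (ContinuousLinearMap.fst ℝ E3 ℍ[ℝ])
    + (Mf κ ε T δ z.1).bilinearComp (W3 κ ε z.1 z.2) (W3 κ ε z.1 z.2)

lemma G3_apply (κ ε T δ : ℝ) (z u v : E3 × ℍ[ℝ]) :
    G3 κ ε T δ z u v = hhat κ z.1 u.1 v.1
      + Mf κ ε T δ z.1 (W3 κ ε z.1 z.2 u) (W3 κ ε z.1 z.2 v) := by
  simp [G3]

lemma contDiffAt_G3 (κ ε T δ : ℝ) {z : E3 × ℍ[ℝ]} (hs : sg κ z.1 ≠ 0) (hz : z.2 ≠ 0)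
    {r : WithTop ℕ∞} : ContDiffAt ℝ r (G3 κ ε T δ) z := by
  refine contDiffAt_of_apply (fun u => contDiffAt_of_apply (fun v => ?_))
  simp only [G3_apply]
  have h1 : ContDiffAt ℝ r (fun z : E3 × ℍ[ℝ] => hhat κ z.1 u.1 v.1) z :=
    (((contDiffAt_hhat κ hs).comp z contDiffAt_fst).clm_apply contDiffAt_const).clm_apply
      contDiffAt_const
  have h2 : ContDiffAt ℝ r (fun z : E3 × ℍ[ℝ] => Mf κ ε T δ z.1) z :=
    (contDiff_Mf κ ε T δ).contDiffAt.comp z contDiffAt_fst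
  exact h1.add ((h2.clm_apply (contDiffAt_W3_apply κ ε hs hz u)).clm_apply
    (contDiffAt_W3_apply κ ε hs hz v))

section
variable {E₁ E₂ : Type*} [NormedAddCommGroup E₁] [InnerProductSpace ℝ E₁]
    [NormedAddCommGroup E₂] [InnerProductSpace ℝ E₂] {k l : ℕ}
    [Fact (finrank ℝ E₁ = k + 1)] [Fact (finrank ℝ E₂ = l + 1)]

lemma contMDiff_of_ambient {W : Type*} [NormedAddCommGroup W] [NormedSpace ℝ W] {r : WithTop ℕ∞}
    {f : sphere (0 : E₁) 1 × sphere (0 : E₂) 1 → W} {F : E₁ × E₂ → W}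
    (hf : ∀ p, f p = F ((p.1 : E₁), (p.2 : E₂)))
    (hF : ∀ p : sphere (0 : E₁) 1 × sphere (0 : E₂) 1, ContDiffAt ℝ r F ((p.1 : E₁), (p.2 : E₂))) :
    ContMDiff ((𝓡 k).prod (𝓡 l)) 𝓘(ℝ, W) r f := by
  have e : f = F ∘ (fun p : sphere (0 : E₁) 1 × sphere (0 : E₂) 1 => ((p.1 : E₁), (p.2 : E₂))) := by
    funext p; exact hf p
  have h1 : ContMDiff ((𝓡 k).prod (𝓡 l)) 𝓘(ℝ, E₁ × E₂) r
      (fun p : sphere (0 : E₁) 1 × sphere (0 : E₂) 1 => ((p.1 : E₁), (p.2 : E₂))) :=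
    (contMDiff_coe_sphere.comp contMDiff_fst).prodMk_space
      (contMDiff_coe_sphere.comp contMDiff_snd)
  rw [e]
  intro p
  exact (contMDiffAt_iff_contDiffAt.2 (hF p)).comp p (h1 p)

end

lemma sphere_norm {E : Type*} [NormedAddCommGroup E] [InnerProductSpace ℝ E]
    (p : sphere (0 : E) 1) : ‖(p : E)‖ = 1 := mem_sphere_zero_iff_norm.1 p.2

lemma sphere_ne_zero {E : Type*} [NormedAddCommGroup E] [InnerProductSpace ℝ E]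
    (p : sphere (0 : E) 1) : (p : E) ≠ 0 := by
  intro h
  have := sphere_norm p
  rw [h, norm_zero] at this
  exact zero_ne_one this

lemma hhat_pos {κ : ℝ} (hκ : |κ| ≤ 1/10) {x : E3} (hx : ‖x‖ = 1) {u : E3} (hu : u ≠ 0) :
    0 < hhat κ x u u := by
  have h1 := sg_pos hκ hx
  have h2 : 0 < ⟪u, u⟫ := real_inner_self_pos.2 hu
  rw [hhat_apply]
  positivity

lemma hhat_nonneg {κ : ℝ} (hκ : |κ| ≤ 1/10) {x : E3} (hx : ‖x‖ = 1) (u : E3) :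
    0 ≤ hhat κ x u u := by
  by_cases hu : u = 0
  · rw [hu]; simp
  · exact (hhat_pos hκ hx hu).le

lemma quat_eq_zero_of_re_vecL {q : ℍ[ℝ]} (h1 : q.re = 0) (h2 : vecL q = 0) : q = 0 := by
  rw [vecL_apply] at h2
  have a0 := congrArg (fun v : E3 => v 0) h2
  have a1 := congrArg (fun v : E3 => v 1) h2
  have a2 := congrArg (fun v : E3 => v 2) h2
  simp at a0 a1 a2
  ext <;> simp_all

theorem g3_metric {κ ε T δ : ℝ} (hκ : |κ| ≤ 1/10)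
    (hM : ∀ y : E3, ‖y‖ = 1 → ∀ a, a ≠ 0 → 0 < Mf κ ε T δ y a a) :
    ContMDiff ((𝓡 2).prod (𝓡 3)) 𝓘(ℝ, (E3 × ℍ[ℝ]) →L[ℝ] (E3 × ℍ[ℝ]) →L[ℝ] ℝ) ∞ (g3 κ ε T δ) ∧
    (∀ p u v, g3 κ ε T δ p u v = g3 κ ε T δ p v u) ∧
    (∀ (p : sphere (0 : E3) 1 × sphere (0 : ℍ[ℝ]) 1) (u : E3 × ℍ[ℝ]), ⟪(p.1 : E3), u.1⟫ = 0 →
      ⟪(p.2 : ℍ[ℝ]), u.2⟫ = 0 → u ≠ 0 → 0 < g3 κ ε T δ p u u) := by
  refine ⟨?_, ?_, ?_⟩
  · refine contMDiff_of_ambient (F := G3 κ ε T δ) (fun p => rfl) (fun p => ?_)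
    exact contDiffAt_G3 κ ε T δ (sg_pos hκ (sphere_norm p.1)).ne' (sphere_ne_zero p.2)
  · intro p u v
    rw [g3_apply, g3_apply, hhat_symm, Mf_symm]
  · intro p u h1 h2 hu
    rw [g3_apply]
    by_cases hu1 : u.1 = 0
    · have hu2 : u.2 ≠ 0 := fun h => hu (Prod.ext hu1 h)
      have hw : W3 κ ε p.1 p.2 u ≠ 0 := by
        rw [W3_apply, hu1, map_zero, add_zero]
        intro h
        have h3 : vecL (u.2 * (p.2 : ℍ[ℝ])⁻¹) = 0 := by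
          simpa using h
        have h4 : (u.2 * (p.2 : ℍ[ℝ])⁻¹).re = 0 := by rw [re_mul_inv, h2, mul_zero]
        have h5 := quat_eq_zero_of_re_vecL h4 h3
        exact (mul_ne_zero hu2 (inv_ne_zero (sphere_ne_zero p.2))) h5
      have h6 := hM _ (sphere_norm p.1) _ hw
      have h7 := hhat_nonneg hκ (sphere_norm p.1) u.1
      linarith
    · have h6 := hhat_pos hκ (sphere_norm p.1) hu1
      have h7 := Mf_nonneg hM (sphere_norm p.1) (W3 κ ε p.1 p.2 u)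
      linarith

/-! ### `g2` -/

lemma W2_apply (κ ε : ℝ) (x y : E3) (u : E3 × E3) : W2 κ ε x y u = cr y u.2 + AvL κ ε x u.1 := by
  simp [W2]

/-- the metric `g2` as a function on the ambient space. -/
noncomputable def G2 (κ ε T δ : ℝ) (z : E3 × E3) : (E3 × E3) →L[ℝ] (E3 × E3) →L[ℝ] ℝ :=
  (hhat κ z.1).bilinearComp (ContinuousLinearMap.fst ℝ E3 E3) (ContinuousLinearMap.fst ℝ E3 E3)
    + (Mf κ ε T δ z.1).bilinearComp (W2 κ ε z.1 z.2) (W2 κ ε z.1 z.2)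
    - (Mf κ ε T δ z.1 z.2 z.2)⁻¹ • (Mf κ ε T δ z.1 z.2 ∘L W2 κ ε z.1 z.2).smulRight
        (Mf κ ε T δ z.1 z.2 ∘L W2 κ ε z.1 z.2)

lemma G2_apply (κ ε T δ : ℝ) (z u v : E3 × E3) :
    G2 κ ε T δ z u v = hhat κ z.1 u.1 v.1
      + Mf κ ε T δ z.1 (W2 κ ε z.1 z.2 u) (W2 κ ε z.1 z.2 v)
      - (Mf κ ε T δ z.1 z.2 z.2)⁻¹ * (Mf κ ε T δ z.1 z.2 (W2 κ ε z.1 z.2 u)
        * Mf κ ε T δ z.1 z.2 (W2 κ ε z.1 z.2 v)) := by
  simp [G2]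

lemma g2_apply (κ ε T δ : ℝ) (p : sphere (0 : E3) 1 × sphere (0 : E3) 1) (u v : E3 × E3) :
    g2 κ ε T δ p u v = hhat κ p.1 u.1 v.1
      + Mf κ ε T δ p.1 (W2 κ ε p.1 p.2 u) (W2 κ ε p.1 p.2 v)
      - (Mf κ ε T δ p.1 p.2 p.2)⁻¹ * (Mf κ ε T δ p.1 p.2 (W2 κ ε p.1 p.2 u)
        * Mf κ ε T δ p.1 p.2 (W2 κ ε p.1 p.2 v)) := by
  simp [g2]

lemma contDiffAt_W2_apply (κ ε : ℝ) {z : E3 × E3} (hs : sg κ z.1 ≠ 0) (u : E3 × E3)
    {r : WithTop ℕ∞} : ContDiffAt ℝ r (fun z : E3 × E3 => W2 κ ε z.1 z.2 u) z := by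
  simp only [W2_apply]
  have h2 : ContDiffAt ℝ r (fun z : E3 × E3 => crL z.2 u.2) z :=
    (crL.contDiff.contDiffAt.comp z contDiffAt_snd).clm_apply contDiffAt_const
  simp only [crL_apply] at h2
  have h4 : ContDiffAt ℝ r (fun z : E3 × E3 => AvL κ ε z.1 u.1) z :=
    ((contDiffAt_AvL κ ε hs).comp z contDiffAt_fst).clm_apply contDiffAt_const
  exact h2.add h4

lemma contDiffAt_G2 (κ ε T δ : ℝ) {z : E3 × E3} (hs : sg κ z.1 ≠ 0)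
    (hz : Mf κ ε T δ z.1 z.2 z.2 ≠ 0) {r : WithTop ℕ∞} : ContDiffAt ℝ r (G2 κ ε T δ) z := by
  refine contDiffAt_of_apply (fun u => contDiffAt_of_apply (fun v => ?_))
  simp only [G2_apply]
  have h1 : ContDiffAt ℝ r (fun z : E3 × E3 => hhat κ z.1 u.1 v.1) z :=
    (((contDiffAt_hhat κ hs).comp z contDiffAt_fst).clm_apply contDiffAt_const).clm_apply
      contDiffAt_const
  have h2 : ContDiffAt ℝ r (fun z : E3 × E3 => Mf κ ε T δ z.1) z :=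
    (contDiff_Mf κ ε T δ).contDiffAt.comp z contDiffAt_fst
  have h3 : ContDiffAt ℝ r (fun z : E3 × E3 => Mf κ ε T δ z.1 z.2) z := h2.clm_apply contDiffAt_snd
  have h4 : ContDiffAt ℝ r (fun z : E3 × E3 => (Mf κ ε T δ z.1 z.2 z.2)⁻¹) z :=
    (h3.clm_apply contDiffAt_snd).inv hz
  have hu := contDiffAt_W2_apply κ ε hs u (r := r)
  have hv := contDiffAt_W2_apply κ ε hs v (r := r)
  exact (h1.add ((h2.clm_apply hu).clm_apply hv)).sub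
    (h4.mul ((h3.clm_apply hu).mul (h3.clm_apply hv)))

lemma inner_cr_left (y p : E3) : ⟪y, cr y p⟫ = 0 := by
  rw [inner_E3]
  simp [cr]
  ring

lemma cr_norm_sq (y p : E3) : ‖cr y p‖ ^ 2 = ‖y‖ ^ 2 * ‖p‖ ^ 2 - ⟪y, p⟫ ^ 2 := by
  rw [norm_sq_E3, norm_sq_E3, norm_sq_E3, inner_E3]
  simp [cr]
  ring

/-- Cauchy-Schwarz for `Mf`, strict version. -/
lemma Mf_cs {κ ε T δ : ℝ} (hM : ∀ y : E3, ‖y‖ = 1 → ∀ a, a ≠ 0 → 0 < Mf κ ε T δ y a a)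
    {x : E3} (hx : ‖x‖ = 1) {y w : E3} (hy : y ≠ 0) :
    Mf κ ε T δ x w w - (Mf κ ε T δ x y y)⁻¹ * (Mf κ ε T δ x y w * Mf κ ε T δ x y w)
      = Mf κ ε T δ x (w - ((Mf κ ε T δ x y y)⁻¹ * Mf κ ε T δ x y w) • y)
          (w - ((Mf κ ε T δ x y y)⁻¹ * Mf κ ε T δ x y w) • y) := by
  have h := (hM x hx y hy).ne'
  simp only [map_sub, map_smul, _root_.sub_apply, _root_.smul_apply, smul_eq_mul]
  rw [Mf_symm κ ε T δ x w y]
  field_simp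
  ring

theorem g2_metric {κ ε T δ : ℝ} (hκ : |κ| ≤ 1/10)
    (hM : ∀ y : E3, ‖y‖ = 1 → ∀ a, a ≠ 0 → 0 < Mf κ ε T δ y a a) :
    ContMDiff ((𝓡 2).prod (𝓡 2)) 𝓘(ℝ, (E3 × E3) →L[ℝ] (E3 × E3) →L[ℝ] ℝ) ∞ (g2 κ ε T δ) ∧
    (∀ p u v, g2 κ ε T δ p u v = g2 κ ε T δ p v u) ∧
    (∀ (p : sphere (0 : E3) 1 × sphere (0 : E3) 1) (u : E3 × E3), ⟪(p.1 : E3), u.1⟫ = 0 →
      ⟪(p.2 : E3), u.2⟫ = 0 → u ≠ 0 → 0 < g2 κ ε T δ p u u) := by
  refine ⟨?_, ?_, ?_⟩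
  · refine contMDiff_of_ambient (F := G2 κ ε T δ) (fun p => rfl) (fun p => ?_)
    have h1 : sg κ (p.1 : E3) ≠ 0 := (sg_pos hκ (sphere_norm p.1)).ne'
    have h2 : Mf κ ε T δ (p.1 : E3) (p.2 : E3) (p.2 : E3) ≠ 0 :=
      (hM (p.1 : E3) (sphere_norm p.1) (p.2 : E3) (sphere_ne_zero p.2)).ne'
    exact contDiffAt_G2 κ ε T δ (z := ((p.1 : E3), (p.2 : E3))) h1 h2
  · intro p u v
    rw [g2_apply, g2_apply, hhat_symm, Mf_symm κ ε T δ (p.1 : E3) (W2 κ ε p.1 p.2 u),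
      mul_comm (Mf κ ε T δ (p.1 : E3) (p.2 : E3) (W2 κ ε p.1 p.2 u))]
  · intro p u h1 h2 hu
    have hy := sphere_ne_zero p.2
    have hcs := Mf_cs hM (sphere_norm p.1) hy (w := W2 κ ε p.1 p.2 u)
    rw [g2_apply, add_sub_assoc, hcs]
    generalize (Mf κ ε T δ p.1 p.2 p.2)⁻¹ * Mf κ ε T δ p.1 p.2 (W2 κ ε p.1 p.2 u) = c
    by_cases hu1 : u.1 = 0
    · have hu2 : u.2 ≠ 0 := fun h => hu (Prod.ext hu1 h)
      have hw : W2 κ ε p.1 p.2 u - c • (p.2 : E3) ≠ 0 := by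
        intro h
        rw [W2_apply, hu1, map_zero, add_zero] at h
        have h3 : cr (p.2 : E3) u.2 = c • (p.2 : E3) := sub_eq_zero.1 h
        have h4 := inner_cr_left (p.2 : E3) u.2
        rw [h3, inner_smul_right, real_inner_self_eq_norm_sq, sphere_norm p.2] at h4
        have h5 : c = 0 := by linarith
        have h6 := cr_norm_sq (p.2 : E3) u.2
        rw [h3, h5, h2, sphere_norm p.2] at h6
        have h7 : ‖u.2‖ ≠ 0 := norm_ne_zero_iff.2 hu2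
        simp at h6
        exact h7 (pow_eq_zero_iff (two_ne_zero)|>.1 h6.symm)
      have h6 := hM _ (sphere_norm p.1) _ hw
      have h7 := hhat_nonneg hκ (sphere_norm p.1) u.1
      linarith
    · have h6 := hhat_pos hκ (sphere_norm p.1) hu1
      have h7 := Mf_nonneg hM (sphere_norm p.1) (W2 κ ε p.1 p.2 u - c • (p.2 : E3))
      linarith

end Pool.Agent.Helper23.HP
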