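import Pool.Agent.Helper23.HP.F5

/-!
# HOPF-F8: assembly for `S² × S³`
-/

open Filter Metric Module Set
open scoped Topology ContDiff RealInnerProductSpace Manifold Quaternion

namespace Pool.Agent.Helper23.HP
open Pool.Agent.Helper20.PC Pool.Agent.Helper20.HP

section
variable {F : Type*} [NormedAddCommGroup F] [NormedSpace ℝ F]
variable {G G' : F → F →L[ℝ] F →L[ℝ] ℝ} {z : F}

lemma metAt_congr (h : G =ᶠ[𝓝 z] G') (hG : MetAt G z) : MetAt G' z where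
  smooth := hG.smooth.congr_of_eventuallyEq h.symm
  symm := by
    filter_upwards [h, hG.symm] with z' h1 h2
    rw [← h1]; exact h2
  pos := by
    filter_upwards [h, hG.pos] with z' h1 h2
    rw [← h1]; exact h2

/-- the Gram determinant is positive. -/
lemma gram_pos (h : MetAt G z) {u v : F} (huv : LinearIndependent ℝ ![u, v]) :
    0 < G z u u * G z v v - G z u v ^ 2 := by
  have hpos := h.pos.self_of_nhds
  have hsym := h.symm.self_of_nhds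
  have hv : v ≠ 0 := huv.ne_zero 1
  have hvv := hpos v hv
  have hne : u + (-(G z u v) / G z v v) • v ≠ 0 := by
    intro h0
    have := (LinearIndependent.pair_iff.1 huv) 1 (-(G z u v) / G z v v) (by rw [one_smul]; exact h0)
    exact one_ne_zero this.1
  have h1 := hpos _ hne
  have e : G z (u + (-(G z u v) / G z v v) • v) (u + (-(G z u v) / G z v v) • v)
      = (G z u u * G z v v - G z u v ^ 2) / G z v v := by
    simp only [map_add, map_smul, _root_.add_apply, _root_.smul_apply, smul_eq_mul]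
    rw [hsym v u]
    field_simp
    ring
  rw [e] at h1
  exact (div_pos_iff_of_pos_right hvv).1 h1

lemma secCurv_pos [FiniteDimensional ℝ F] (h : MetAt G z) {u v : F}
    (huv : LinearIndependent ℝ ![u, v]) (hn : 0 < num G z u v) : 0 < secCurv G z u v := by
  rw [secCurv, G_Riem h]
  exact div_pos hn (gram_pos h huv)

end

lemma ext_g3_eventually (κ ε T δ : ℝ) (p : sphere (0 : E3) 1 × sphere (0 : ℍ[ℝ]) 1)
    {z : E3 × ℍ[ℝ]} (hz1 : z.1 ≠ 0) (hz2 : z.2 ≠ 0) :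
    extM p (g3 κ ε T δ) =ᶠ[𝓝 z] KK (hE κ) (NE κ ε T δ) (AE κ ε) := by
  have e1 : ∀ᶠ z' : E3 × ℍ[ℝ] in 𝓝 z, z'.1 ≠ 0 := continuous_fst.continuousAt.eventually_ne hz1
  have e2 : ∀ᶠ z' : E3 × ℍ[ℝ] in 𝓝 z, z'.2 ≠ 0 := continuous_snd.continuousAt.eventually_ne hz2
  filter_upwards [e1, e2] with z' a b
  exact ContinuousLinearMap.ext fun u => ContinuousLinearMap.ext fun v => ext_g3 p a b u v

/-- the metric `KK` (a second proof of F1). -/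
lemma metAt_KK' {κ ε T δ : ℝ} (hκ : |κ| ≤ 1/10)
    (hM : ∀ y : E3, ‖y‖ = 1 → ∀ a, a ≠ 0 → 0 < Mf κ ε T δ y a a)
    {z : E3 × ℍ[ℝ]} (hz1 : z.1 ≠ 0) (hz2 : z.2 ≠ 0) :
    MetAt (KK (hE κ) (NE κ ε T δ) (AE κ ε)) z := by
  let p : sphere (0 : E3) 1 × sphere (0 : ℍ[ℝ]) 1 :=
    (⟨‖z.1‖⁻¹ • z.1, mem_sphere_zero_iff_norm.2 (norm_normalize hz1)⟩,
      ⟨‖z.2‖⁻¹ • z.2, mem_sphere_zero_iff_norm.2 (norm_normalize hz2)⟩)
  exact metAt_congr (ext_g3_eventually κ ε T δ p hz1 hz2) (metAt_ext_g3 hκ hM p hz1 hz2)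

/-- right translation. -/
noncomputable def rightL (q : ℍ[ℝ]) : E3 × ℍ[ℝ] →ₗ[ℝ] E3 × ℍ[ℝ] where
  toFun u := (u.1, u.2 * q⁻¹)
  map_add' u v := by simp [add_mul]
  map_smul' r u := by simp

lemma rightL_injective {q : ℍ[ℝ]} (hq : q ≠ 0) : Function.Injective (rightL q) := by
  intro u v h
  have h1 : (rightL q u).1 = (rightL q v).1 := congrArg Prod.fst h
  have h2 : (rightL q u).2 = (rightL q v).2 := congrArg Prod.snd h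
  exact Prod.ext h1 (mul_right_cancel₀ (inv_ne_zero hq) h2)

lemma linInd_right {q : ℍ[ℝ]} (hq : q ≠ 0) {u v : E3 × ℍ[ℝ]} (h : LinearIndependent ℝ ![u, v]) :
    LinearIndependent ℝ ![(u.1, u.2 * q⁻¹), (v.1, v.2 * q⁻¹)] := by
  have h1 := h.map' (rightL q) (LinearMap.ker_eq_bot.2 (rightL_injective hq))
  have e : (rightL q) ∘ ![u, v] = ![(u.1, u.2 * q⁻¹), (v.1, v.2 * q⁻¹)] := by
    funext i
    fin_cases i <;> rfl
  rw [e] at h1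
  exact h1

/-- The statement of `main3`. -/
def MainStmt : Prop :=
    ∃ κ ε T δ : ℝ, 0 < κ ∧ κ ≤ 1/10 ∧ 0 < δ ∧
      (∀ y : E3, ‖y‖ = 1 → ∀ a, a ≠ 0 → 0 < Mf κ ε T δ y a a) ∧
      ∀ x : E3, ‖x‖ = 1 → ∀ u v : E3 × ℍ[ℝ], ⟪x, u.1⟫ = 0 → u.2.re = 0 → ⟪x, v.1⟫ = 0 → v.2.re = 0 →
        LinearIndependent ℝ ![u, v] → 0 < num (KK (hE κ) (NE κ ε T δ) (AE κ ε)) (x, 1) u v

/-- The statement of `num_right`. -/
def RightStmt : Prop :=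
    ∀ {κ ε T δ : ℝ} (_ : |κ| ≤ 1/10) (_ : ∀ y : E3, ‖y‖ = 1 → ∀ a, a ≠ 0 → 0 < Mf κ ε T δ y a a)
    {x : E3} (_ : x ≠ 0) {q : ℍ[ℝ]} (_ : q ≠ 0) (u v : E3 × ℍ[ℝ]),
    num (KK (hE κ) (NE κ ε T δ) (AE κ ε)) (x, q) u v
      = num (KK (hE κ) (NE κ ε T δ) (AE κ ε)) (x, 1) (u.1, u.2 * q⁻¹) (v.1, v.2 * q⁻¹)

/-- positivity of the numerator at every point, from `main3` and `num_right`. -/
lemma num_pos_of_main {κ ε T δ : ℝ} (hκ : |κ| ≤ 1/10)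
    (hM : ∀ y : E3, ‖y‖ = 1 → ∀ a, a ≠ 0 → 0 < Mf κ ε T δ y a a)
    (hmain : ∀ x : E3, ‖x‖ = 1 → ∀ u v : E3 × ℍ[ℝ], ⟪x, u.1⟫ = 0 → u.2.re = 0 → ⟪x, v.1⟫ = 0 →
      v.2.re = 0 → LinearIndependent ℝ ![u, v] → 0 < num (KK (hE κ) (NE κ ε T δ) (AE κ ε)) (x, 1) u v)
    (hright : RightStmt) {x : E3} {q : ℍ[ℝ]} (hx : ‖x‖ = 1) (hq : q ≠ 0) {u v : E3 × ℍ[ℝ]}
    (h1 : ⟪x, u.1⟫ = 0) (h2 : ⟪q, u.2⟫ = 0) (h3 : ⟪x, v.1⟫ = 0) (h4 : ⟪q, v.2⟫ = 0)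
    (huv : LinearIndependent ℝ ![u, v]) :
    0 < num (KK (hE κ) (NE κ ε T δ) (AE κ ε)) (x, q) u v := by
  have hx0 : x ≠ 0 := by
    intro h; rw [h, norm_zero] at hx; exact zero_ne_one hx
  rw [hright hκ hM hx0 hq u v]
  refine hmain x hx _ _ h1 ?_ h3 ?_ (linInd_right hq huv)
  · simp only [re_mul_inv, h2, mul_zero]
  · simp only [re_mul_inv, h4, mul_zero]

theorem final3_of (hmain : MainStmt) (hright : RightStmt) :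
    ∃ g : sphere (0 : E3) 1 × sphere (0 : ℍ[ℝ]) 1 → (E3 × ℍ[ℝ]) →L[ℝ] (E3 × ℍ[ℝ]) →L[ℝ] ℝ,
      ContMDiff ((𝓡 2).prod (𝓡 3)) 𝓘(ℝ, (E3 × ℍ[ℝ]) →L[ℝ] (E3 × ℍ[ℝ]) →L[ℝ] ℝ) ∞ g ∧
      (∀ p u v, g p u v = g p v u) ∧
      (∀ (p : sphere (0 : E3) 1 × sphere (0 : ℍ[ℝ]) 1) (u : E3 × ℍ[ℝ]), ⟪(p.1 : E3), u.1⟫ = 0 →
        ⟪(p.2 : ℍ[ℝ]), u.2⟫ = 0 → u ≠ 0 → 0 < g p u u) ∧
      ∀ (p : sphere (0 : E3) 1 × sphere (0 : ℍ[ℝ]) 1) (u v : E3 × ℍ[ℝ]),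
        ⟪(p.1 : E3), u.1⟫ = 0 → ⟪(p.2 : ℍ[ℝ]), u.2⟫ = 0 → ⟪(p.1 : E3), v.1⟫ = 0 → ⟪(p.2 : ℍ[ℝ]), v.2⟫ = 0 →
        LinearIndependent ℝ ![u, v] → 0 < sectional g p u v := by
  obtain ⟨κ, ε, T, δ, hκ0, hκ1, _, hM, hm⟩ := hmain
  have hκ : |κ| ≤ 1/10 := by rw [abs_of_pos hκ0]; exact hκ1
  obtain ⟨a1, a2, a3⟩ := g3_metric (ε := ε) (T := T) (δ := δ) hκ hM
  refine ⟨g3 κ ε T δ, a1, a2, a3, ?_⟩
  intro p u v h1 h2 h3 h4 huv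
  have n1 := sphere_ne_zero p.1
  have n2 := sphere_ne_zero p.2
  rw [sectional, secCurv_congr (ext_g3_eventually κ ε T δ p (z := ((p.1 : E3), (p.2 : ℍ[ℝ]))) n1 n2)]
  refine secCurv_pos (metAt_KK' hκ hM n1 n2) huv ?_
  exact num_pos_of_main hκ hM hm hright (sphere_norm p.1) n2 h1 h2 h3 h4 huv

end Pool.Agent.Helper23.HP
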