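import Pool.Agent.Helper23.HP.F8

/-!
# HOPF-F9: assembly for `S² × S²`
-/

open Filter Metric Module Set
open scoped Topology ContDiff RealInnerProductSpace Manifold Quaternion

namespace Pool.Agent.Helper23.HP
open Pool.Agent.Helper20.PC Pool.Agent.Helper20.HP

/-! ### the Hopf map -/

lemma qI_re : qI.re = 0 := rfl
lemma qI_i : qI.imI = 1 := rfl
lemma qI_j : qI.imJ = 0 := rfl
lemma qI_k : qI.imK = 0 := rfl

/-- the quaternion `j`. -/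
def qJ : ℍ[ℝ] := ⟨0, 0, 1, 0⟩

lemma qJ_re : qJ.re = 0 := rfl
lemma qJ_i : qJ.imI = 0 := rfl
lemma qJ_j : qJ.imJ = 1 := rfl
lemma qJ_k : qJ.imK = 0 := rfl

lemma qim_re (v : E3) : (qimL v).re = 0 := rfl
lemma qim_i (v : E3) : (qimL v).imI = v 0 := rfl
lemma qim_j (v : E3) : (qimL v).imJ = v 1 := rfl
lemma qim_k (v : E3) : (qimL v).imK = v 2 := rfl

lemma re_conj (q : ℍ[ℝ]) : (q * qI * star q).re = 0 := by
  simp only [Quaternion.re_mul, Quaternion.imI_mul, Quaternion.imJ_mul, Quaternion.imK_mul,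
    Quaternion.re_star, Quaternion.imI_star, Quaternion.imJ_star, Quaternion.imK_star, qI_re, qI_i,
    qI_j, qI_k]
  ring

lemma norm_sq_quat (q : ℍ[ℝ]) : ‖q‖ ^ 2 = q.re ^ 2 + q.imI ^ 2 + q.imJ ^ 2 + q.imK ^ 2 := by
  rw [← normSq_eq, Quaternion.normSq_def']

lemma norm_qI : ‖qI‖ = 1 := by
  have h : ‖qI‖ ^ 2 = 1 := by rw [norm_sq_quat, qI_re, qI_i, qI_j, qI_k]; norm_num
  have h2 : (‖qI‖ - 1) * (‖qI‖ + 1) = 0 := by linarith
  rcases mul_eq_zero.1 h2 with h3 | h3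
  · linarith
  · have := norm_nonneg qI
    linarith

lemma norm_vecL_sq (q : ℍ[ℝ]) : ‖vecL q‖ ^ 2 = ‖q‖ ^ 2 - q.re ^ 2 := by
  rw [norm_sq_quat, norm_sq_E3, vecL_apply]
  simp
  ring

lemma norm_vecL_conj (q : ℍ[ℝ]) : ‖vecL (q * qI * star q)‖ = ‖q‖ ^ 2 := by
  have h1 := norm_vecL_sq (q * qI * star q)
  rw [re_conj, norm_mul, norm_mul, norm_qI, Quaternion.norm_star] at h1
  have h2 : ‖vecL (q * qI * star q)‖ ^ 2 = (‖q‖ ^ 2) ^ 2 := by rw [h1]; ring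
  exact (sq_eq_sq₀ (norm_nonneg _) (by positivity)).1 h2

lemma norm_prj (z : E3 × ℍ[ℝ]) : ‖(prj z).2‖ = ‖z.2‖ := by
  rw [prj]
  simp only
  rw [norm_smul, norm_vecL_conj, norm_inv, norm_norm]
  by_cases h : ‖z.2‖ = 0
  · rw [h]; simp
  · field_simp

lemma exists_hopf (y : E3) (hy : ‖y‖ = 1) : ∃ q : ℍ[ℝ], ‖q‖ = 1 ∧ vecL (q * qI * star q) = y := by
  have hns := norm_sq_E3 y
  rw [hy] at hns
  by_cases h : qimL y + qI = 0
  · refine ⟨qJ, ?_, ?_⟩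
    · have h1 : ‖qJ‖ ^ 2 = 1 := by rw [norm_sq_quat, qJ_re, qJ_i, qJ_j, qJ_k]; norm_num
      exact (sq_eq_sq₀ (norm_nonneg _) zero_le_one).1 (by rw [h1]; norm_num)
    · have h1 := congrArg (fun q : ℍ[ℝ] => q.imI) h
      have h2 := congrArg (fun q : ℍ[ℝ] => q.imJ) h
      have h3 := congrArg (fun q : ℍ[ℝ] => q.imK) h
      simp only [Quaternion.imI_add, Quaternion.imJ_add, Quaternion.imK_add, qI_i, qI_j, qI_k,
        qim_i, qim_j, qim_k, Quaternion.imI_zero, Quaternion.imJ_zero, Quaternion.imK_zero] at h1 h2 h3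
      have e1 : (qJ * qI * star qJ).imI = y 0 := by
        simp only [Quaternion.re_mul, Quaternion.imI_mul, Quaternion.imJ_mul, Quaternion.imK_mul,
          Quaternion.re_star, Quaternion.imI_star, Quaternion.imJ_star, Quaternion.imK_star, qI_re,
          qI_i, qI_j, qI_k, qJ_re, qJ_i, qJ_j, qJ_k]
        linarith
      have e2 : (qJ * qI * star qJ).imJ = y 1 := by
        simp only [Quaternion.re_mul, Quaternion.imI_mul, Quaternion.imJ_mul, Quaternion.imK_mul,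
          Quaternion.re_star, Quaternion.imI_star, Quaternion.imJ_star, Quaternion.imK_star, qI_re,
          qI_i, qI_j, qI_k, qJ_re, qJ_i, qJ_j, qJ_k]
        linarith
      have e3 : (qJ * qI * star qJ).imK = y 2 := by
        simp only [Quaternion.re_mul, Quaternion.imI_mul, Quaternion.imJ_mul, Quaternion.imK_mul,
          Quaternion.re_star, Quaternion.imI_star, Quaternion.imJ_star, Quaternion.imK_star, qI_re,
          qI_i, qI_j, qI_k, qJ_re, qJ_i, qJ_j, qJ_k]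
        linarith
      rw [vecL_apply, e1, e2, e3]
      ext i
      fin_cases i <;> rfl
  · set q₀ : ℍ[ℝ] := qimL y + qI with hq₀
    have hn : ‖q₀‖ ≠ 0 := norm_ne_zero_iff.2 h
    have e1 : q₀ * qI = qimL y * q₀ := by
      rw [hq₀]
      ext <;> simp only [Quaternion.re_mul, Quaternion.imI_mul, Quaternion.imJ_mul,
        Quaternion.imK_mul, Quaternion.re_add, Quaternion.imI_add, Quaternion.imJ_add,
        Quaternion.imK_add, qI_re, qI_i, qI_j, qI_k, qim_re, qim_i, qim_j, qim_k]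
      · nlinarith [hns]
      · ring
      · ring
      · ring
    have e2 : q₀ * star q₀ = ((‖q₀‖ ^ 2 : ℝ) : ℍ[ℝ]) := by
      rw [Quaternion.self_mul_star, normSq_eq]
    refine ⟨‖q₀‖⁻¹ • q₀, norm_normalize h, ?_⟩
    have e3 : (‖q₀‖⁻¹ • q₀) * qI * star (‖q₀‖⁻¹ • q₀) = qimL y := by
      rw [Quaternion.star_smul, smul_mul_assoc, smul_mul_assoc, mul_smul_comm, e1, mul_assoc, e2,
        smul_smul, Quaternion.mul_coe_eq_smul, smul_smul]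
      have : ‖q₀‖⁻¹ * ‖q₀‖⁻¹ * ‖q₀‖ ^ 2 = 1 := by field_simp
      rw [this, one_smul]
    rw [e3, vecL_qimL]

/-- The statement of `num_submersion` for the spaces at hand. -/
def SubStmt : Prop :=
    ∀ {G : E3 × ℍ[ℝ] → (E3 × ℍ[ℝ]) →L[ℝ] (E3 × ℍ[ℝ]) →L[ℝ] ℝ}
      {G' : E3 × E3 → (E3 × E3) →L[ℝ] (E3 × E3) →L[ℝ] ℝ} {φ : E3 × ℍ[ℝ] → E3 × E3} {z : E3 × ℍ[ℝ]}
      {β : E3 × ℍ[ℝ] → E3 × ℍ[ℝ] →L[ℝ] ℝ}
      (_ : ContDiffAt ℝ 3 φ z) (_ : ContDiffAt ℝ 2 β z) (_ : MetAt G' (φ z)) (_ : MetAt G z)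
      (_ : ∀ (a' : E3 × E3) (s : ℝ), ∃ a, fderiv ℝ φ z a = a' ∧ β z a = s)
      (_ : ∀ᶠ w in 𝓝 z, ∀ a b, G w a b
        = G' (φ w) (fderiv ℝ φ w a) (fderiv ℝ φ w b) + β w a * β w b)
      {u v : E3 × ℍ[ℝ]} (_ : β z u = 0) (_ : β z v = 0),
      num G z u v = num G' (φ z) (fderiv ℝ φ z u) (fderiv ℝ φ z v)
        - (3/4) * (fderiv ℝ β z u v - fderiv ℝ β z v u) ^ 2

/-- The statement of `submersion`. -/
def SubmStmt : Prop :=
    ∀ {κ ε T δ : ℝ} (_ : |κ| ≤ 1/10) (_ : ∀ y : E3, ‖y‖ = 1 → ∀ a, a ≠ 0 → 0 < Mf κ ε T δ y a a)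
    (p : sphere (0 : E3) 1 × sphere (0 : E3) 1) {z : E3 × ℍ[ℝ]} (_ : z.1 ≠ 0) (_ : z.2 ≠ 0),
    ContDiffAt ℝ 3 prj z ∧ ContDiffAt ℝ 2 (bet κ ε T δ) z ∧ (prj z).1 ≠ 0 ∧ (prj z).2 ≠ 0 ∧
    (∀ (a' : E3 × E3) (s : ℝ), ∃ a, fderiv ℝ prj z a = a' ∧ bet κ ε T δ z a = s) ∧
    (∀ a b, KK (hE κ) (NE κ ε T δ) (AE κ ε) z a b
      = extM p (g2 κ ε T δ) (prj z) (fderiv ℝ prj z a) (fderiv ℝ prj z b)
        + bet κ ε T δ z a * bet κ ε T δ z b)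

/-- derivative of the first component of `prj`. -/
lemma fderiv_prj_fst {z : E3 × ℍ[ℝ]} (h : DifferentiableAt ℝ prj z) (a : E3 × ℍ[ℝ]) :
    (fderiv ℝ prj z a).1 = a.1 := by
  have h1 : HasFDerivAt (fun w : E3 × ℍ[ℝ] => (prj w).1)
      (ContinuousLinearMap.fst ℝ E3 E3 ∘L fderiv ℝ prj z) z := h.hasFDerivAt.fst
  have h2 : HasFDerivAt (fun w : E3 × ℍ[ℝ] => (prj w).1) (ContinuousLinearMap.fst ℝ E3 ℍ[ℝ]) z :=
    (ContinuousLinearMap.fst ℝ E3 ℍ[ℝ]).hasFDerivAt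
  have h3 := h1.unique h2
  exact DFunLike.congr_fun h3 a

/-- the radial component of the derivative of the second component of `prj`. -/
lemma inner_fderiv_prj_snd {z : E3 × ℍ[ℝ]} (h : DifferentiableAt ℝ prj z) (a : E3 × ℍ[ℝ]) :
    ⟪(prj z).2, (fderiv ℝ prj z a).2⟫ = ⟪z.2, a.2⟫ := by
  have h0 : HasFDerivAt (fun w : E3 × ℍ[ℝ] => (prj w).2)
      (ContinuousLinearMap.snd ℝ E3 E3 ∘L fderiv ℝ prj z) z := h.hasFDerivAt.snd
  have h1 := h0.norm_sq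
  have h2 : HasFDerivAt (fun w : E3 × ℍ[ℝ] => w.2) (ContinuousLinearMap.snd ℝ E3 ℍ[ℝ]) z :=
    (ContinuousLinearMap.snd ℝ E3 ℍ[ℝ]).hasFDerivAt
  have h3 := h2.norm_sq
  have e : (fun w : E3 × ℍ[ℝ] => ‖(prj w).2‖ ^ 2) = fun w : E3 × ℍ[ℝ] => ‖w.2‖ ^ 2 := by
    funext w; rw [norm_prj]
  rw [e] at h1
  have h4 := DFunLike.congr_fun (h1.unique h3) a
  simpa using h4

theorem final2_of (hmain : MainStmt) (hright : RightStmt) (hsub : SubStmt) (hsubm : SubmStmt) :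
    ∃ g : sphere (0 : E3) 1 × sphere (0 : E3) 1 → (E3 × E3) →L[ℝ] (E3 × E3) →L[ℝ] ℝ,
      ContMDiff ((𝓡 2).prod (𝓡 2)) 𝓘(ℝ, (E3 × E3) →L[ℝ] (E3 × E3) →L[ℝ] ℝ) ∞ g ∧
      (∀ p u v, g p u v = g p v u) ∧
      (∀ (p : sphere (0 : E3) 1 × sphere (0 : E3) 1) (u : E3 × E3), ⟪(p.1 : E3), u.1⟫ = 0 →
        ⟪(p.2 : E3), u.2⟫ = 0 → u ≠ 0 → 0 < g p u u) ∧
      ∀ (p : sphere (0 : E3) 1 × sphere (0 : E3) 1) (u v : E3 × E3),
        ⟪(p.1 : E3), u.1⟫ = 0 → ⟪(p.2 : E3), u.2⟫ = 0 → ⟪(p.1 : E3), v.1⟫ = 0 → ⟪(p.2 : E3), v.2⟫ = 0 →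
        LinearIndependent ℝ ![u, v] → 0 < sectional g p u v := by
  obtain ⟨κ, ε, T, δ, hκ0, hκ1, _, hM, hm⟩ := hmain
  have hκ : |κ| ≤ 1/10 := by rw [abs_of_pos hκ0]; exact hκ1
  obtain ⟨a1, a2, a3⟩ := g2_metric (ε := ε) (T := T) (δ := δ) hκ hM
  refine ⟨g2 κ ε T δ, a1, a2, a3, ?_⟩
  intro p u v h1 h2 h3 h4 huv
  have n1 := sphere_ne_zero p.1
  have n2 := sphere_ne_zero p.2
  obtain ⟨q, hq1, hq2⟩ := exists_hopf (p.2 : E3) (sphere_norm p.2)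
  have hq0 : q ≠ 0 := by
    intro h; rw [h, norm_zero] at hq1; exact zero_ne_one hq1
  set z : E3 × ℍ[ℝ] := ((p.1 : E3), q) with hz
  have hprj : prj z = ((p.1 : E3), (p.2 : E3)) := by
    rw [prj, hz]
    simp only
    rw [hq1, hq2, inv_one, one_smul]
  obtain ⟨b1, b2, _, _, b5, _⟩ := hsubm (ε := ε) (T := T) (δ := δ) hκ hM p (z := z) n1 hq0
  have hd : DifferentiableAt ℝ prj z := b1.differentiableAt (by norm_num)
  obtain ⟨u', hu1, hu2⟩ := b5 u 0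
  obtain ⟨v', hv1, hv2⟩ := b5 v 0
  have c1 : u'.1 = u.1 := by rw [← fderiv_prj_fst hd u', hu1]
  have c2 : v'.1 = v.1 := by rw [← fderiv_prj_fst hd v', hv1]
  have c3 : ⟪q, u'.2⟫ = 0 := by
    have := inner_fderiv_prj_snd hd u'
    rw [hu1, hprj] at this
    rw [← h2]
    exact this.symm
  have c4 : ⟪q, v'.2⟫ = 0 := by
    have := inner_fderiv_prj_snd hd v'
    rw [hv1, hprj] at this
    rw [← h4]
    exact this.symm
  have hli : LinearIndependent ℝ ![u', v'] := by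
    have e : (fderiv ℝ prj z : E3 × ℍ[ℝ] →ₗ[ℝ] E3 × E3) ∘ ![u', v'] = ![u, v] := by
      funext i
      fin_cases i
      · exact hu1
      · exact hv1
    refine LinearIndependent.of_comp (fderiv ℝ prj z : E3 × ℍ[ℝ] →ₗ[ℝ] E3 × E3) ?_
    rw [e]
    exact huv
  have hpos := num_pos_of_main hκ hM hm hright (sphere_norm p.1) hq0
    (by rw [c1]; exact h1) c3 (by rw [c2]; exact h3) c4 hli
  have hm1 : MetAt (extM p (g2 κ ε T δ)) (prj z) := by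
    rw [hprj]
    exact metAt_ext_g2 hκ hM p n1 n2
  have hm2 : MetAt (KK (hE κ) (NE κ ε T δ) (AE κ ε)) z := metAt_KK' hκ hM n1 hq0
  have hev : ∀ᶠ w in 𝓝 z, ∀ a b, KK (hE κ) (NE κ ε T δ) (AE κ ε) w a b
        = extM p (g2 κ ε T δ) (prj w) (fderiv ℝ prj w a) (fderiv ℝ prj w b)
          + bet κ ε T δ w a * bet κ ε T δ w b := by
    have e1 : ∀ᶠ z' : E3 × ℍ[ℝ] in 𝓝 z, z'.1 ≠ 0 := continuous_fst.continuousAt.eventually_ne n1
    have e2 : ∀ᶠ z' : E3 × ℍ[ℝ] in 𝓝 z, z'.2 ≠ 0 := continuous_snd.continuousAt.eventually_ne hq0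
    filter_upwards [e1, e2] with w w1 w2
    exact (hsubm (ε := ε) (T := T) (δ := δ) hκ hM p w1 w2).2.2.2.2.2
  have key := hsub b1 b2 hm1 hm2 b5 hev hu2 hv2
  rw [hu1, hv1, hprj] at key
  rw [hprj] at hm1
  refine secCurv_pos hm1 huv ?_
  have := sq_nonneg (fderiv ℝ (bet κ ε T δ) z u' v' - fderiv ℝ (bet κ ε T δ) z v' u')
  rw [hz] at key this
  linarith

end Pool.Agent.Helper23.HP
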